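import Pool.Agent.V8H7.KD.Sch

set_option autoImplicit false

/-!
# Projective modules presented by dominated matrices come from the coefficient ring

Let `G` be a torsion-free group and `R` any ring with a norm. A matrix over `RG` is regarded as an
infinite matrix with entries in `R`. If the coefficients of `1` in its diagonal entries dominate the
matrix of the norms of all other coefficients in the sense of a weighted `ℓ^p` norm, equality
allowed, every projective module presented by it comes from `R` in `K_0(RG)`. With any factor larger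
than `1` in place of `1` the condition holds for suitable presentations of all modules.
-/

namespace Pool.Agent.Results.MP_1a2884_al.DominatedPresentations

open Matrix

variable {R : Type} [Ring R] {G : Type} [Group G]

/-- A norm on a ring: definite, subadditive, even and submultiplicative. -/
structure RingNorm' (ν : R → ℝ) : Prop where
  zero : ν 0 = 0
  pos : ∀ x, x ≠ 0 → 0 < ν x
  add : ∀ x y, ν (x + y) ≤ ν x + ν y
  neg : ∀ x, ν (-x) = ν x
  mul : ∀ x y, ν (x * y) ≤ ν x * ν y

/-- `P` is the cokernel of the right multiplication by `A` on row vectors. -/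
def Presents {κ : Type} [Fintype κ] (A : Matrix κ κ (MonoidAlgebra R G))
    (P : Type) [AddCommGroup P] [Module (MonoidAlgebra R G) P] : Prop :=
  Nonempty (P ≃ₗ[MonoidAlgebra R G]
    ((κ → MonoidAlgebra R G) ⧸ LinearMap.range A.vecMulLinear))

/-- A matrix over `R` as a matrix over `RG`. The row space of `extended G B` is the module induced
from the row space of `B` (`RG` is free over `R`). -/
noncomputable def extended (G : Type) [Group G] {κ : Type} (B : Matrix κ κ R) :
    Matrix κ κ (MonoidAlgebra R G) := B.map fun r => MonoidAlgebra.single 1 r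

open Classical in
/-- The infinite matrix of the norms of the coefficients of `A`, without the coefficients of `1` in
the diagonal entries: the entry at `(i, g), (j, h)` is the norm of the coefficient of `g⁻¹h` in
`A i j`. -/
noncomputable def others {κ : Type} (ν : R → ℝ) (A : Matrix κ κ (MonoidAlgebra R G))
    (u v : κ × G) : ℝ :=
  if u = v then 0 else ν ((A u.1 v.1).coeff (u.2⁻¹ * v.2))

/-- Multiplication by the coefficient of `1` in the diagonal entry `A i i` from the right multiplies
norms by at least `μ i`. -/
def Multipliers {κ : Type} (ν : R → ℝ) (A : Matrix κ κ (MonoidAlgebra R G)) (μ : κ → ℝ) : Prop :=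
  (∀ i, 0 ≤ μ i) ∧ ∀ i y, ν y * μ i ≤ ν (y * (A i i).coeff 1)

/-- The matrix `others` is at most `c` times the diagonal matrix of the `μ i` in the sense of the
`ℓ^p` norm with the weights `w`. -/
def Bounded {κ : Type} (ν : R → ℝ) (A : Matrix κ κ (MonoidAlgebra R G)) (μ : κ → ℝ)
    (p : ℝ) (w : κ × G → ℝ) (c : ℝ) : Prop :=
  ∀ (z : κ × G → ℝ) (L M : Finset (κ × G)), (∀ u, 0 ≤ z u) →
    ∑ v ∈ M, w v * (∑ u ∈ L, z u * others ν A u v) ^ p
      ≤ c ^ p * ∑ u ∈ L, w u * (z u * μ u.1) ^ p

/-- `A` is dominated by its diagonal (equality allowed) for some exponent and some weights. -/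
def Dominated {κ : Type} (ν : R → ℝ) (A : Matrix κ κ (MonoidAlgebra R G)) : Prop :=
  ∃ (μ : κ → ℝ) (p : ℝ) (w : κ × G → ℝ), Multipliers ν A μ ∧ 0 < p ∧ (∀ v, 0 < w v) ∧
    Bounded ν A μ p w 1

theorem off_eq_others {κ : Type} [DecidableEq κ] [DecidableEq G] (ν : R → ℝ)
    (A : Matrix κ κ (MonoidAlgebra R G)) (u v : κ × G) :
    V8H7.KD.off ν A u v = others ν A u v := by
  unfold V8H7.KD.off others V8H7.KD.ent
  by_cases h : u = v
  · simp only [if_pos h]
  · simp only [if_neg h]

/-- Let `G` be a torsion-free group, `R` a ring and `ν` a norm on `R`.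

(1) The row space of a dominated square matrix over `RG` is induced from the row space of a matrix
over `R`.

(2) If `P` is projective and presented by a dominated matrix with `n` rows there is an idempotent
matrix `E` over `R` such that the direct sum of `P` and the module induced from the row space of `E`
is free of rank `n`; so the class of `P` comes from `K_0(R)`.

(3) The bound is sharp. Let `ν 1 = 1` and `ν (n y) = n ν y`, and let `c > 1`. Then every finitely
generated projective `RG`-module is presented by a square matrix with positive multipliers `μ i`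
for which all row sums and all column sums of `others` are at most `c` times the multiplier; hence
for every `p ≥ 1` the `ℓ^p` condition holds with the factor `c` and the weights `μ ^ (1 - p)`. -/
theorem result (R : Type) [Ring R] (G : Type) [Group G]
    (htf : ∀ g : G, ∀ k : ℕ, 0 < k → g ^ k = 1 → g = 1) (ν : R → ℝ) (hν : RingNorm' ν) :
    (∀ (κ : Type) [Fintype κ] (A : Matrix κ κ (MonoidAlgebra R G)), Dominated ν A →
      ∃ B : Matrix κ κ R, Nonempty (LinearMap.range A.vecMulLinear ≃ₗ[MonoidAlgebra R G]
        LinearMap.range (extended G B).vecMulLinear)) ∧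
    (∀ (κ : Type) [Fintype κ] (A : Matrix κ κ (MonoidAlgebra R G)), Dominated ν A →
      ∀ (P : Type) [AddCommGroup P] [Module (MonoidAlgebra R G) P],
        Module.Projective (MonoidAlgebra R G) P → Presents A P →
        ∃ E : Matrix κ κ R, E * E = E ∧
          Nonempty ((P × LinearMap.range (extended G E).vecMulLinear) ≃ₗ[MonoidAlgebra R G]
            (κ → MonoidAlgebra R G))) ∧
    (ν 1 = 1 → (∀ (n : ℕ) (y : R), ν (n * y) = n * ν y) → ∀ c : ℝ, 1 < c →
      ∀ (P : Type) [AddCommGroup P] [Module (MonoidAlgebra R G) P],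
        Module.Finite (MonoidAlgebra R G) P → Module.Projective (MonoidAlgebra R G) P →
        ∃ (κ : Type) (_ : Fintype κ) (A : Matrix κ κ (MonoidAlgebra R G)) (μ : κ → ℝ),
          Presents A P ∧ Multipliers ν A μ ∧ (∀ i, 0 < μ i) ∧
          (∀ u (M : Finset (κ × G)), ∑ v ∈ M, others ν A u v ≤ c * μ u.1) ∧
          (∀ v (L : Finset (κ × G)), ∑ u ∈ L, others ν A u v ≤ c * μ v.1) ∧
          ∀ p : ℝ, 1 ≤ p → Bounded ν A μ p (fun u => μ u.1 ^ (1 - p)) c) := by
  classical
  have hν' : V8H7.KD.IsNorm ν := ⟨hν.zero, hν.pos, hν.add, hν.neg, hν.mul⟩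
  have hdom : ∀ {κ : Type} (A : Matrix κ κ (MonoidAlgebra R G)), Dominated ν A →
      ∃ μ, V8H7.KD.Dmd ν A μ := by
    rintro κ A ⟨μ, p, w, h1, hp, hw, h2⟩
    refine ⟨μ, h1.1, h1.2, p, w, hp, hw, fun z L M hz => ?_⟩
    have h3 := h2 z L M hz
    rw [Real.one_rpow, one_mul] at h3
    simp only [off_eq_others]
    exact h3
  refine ⟨?_, ?_, ?_⟩
  · intro κ _ A hA
    obtain ⟨μ, h1⟩ := hdom A hA
    exact V8H7.KD.row_space htf hν' h1
  · rintro κ _ A hA P _ _ hP ⟨e⟩
    obtain ⟨μ, h1⟩ := hdom A hA
    exact V8H7.KD.proj_main htf hν' h1 e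
  · intro h1 hn c hc P _ _ hf hP
    obtain ⟨n, A, ⟨e⟩⟩ := V8H7.KD.exists_square P hf hP
    obtain ⟨K, h2, h3, h4, h5⟩ := V8H7.KD.big_main hν' h1 hn A c hc
    refine ⟨Fin n ⊕ Fin n × Fin K, inferInstance, V8H7.KD.big A K, V8H7.KD.mm ν A K,
      V8H7.KD.big_pres A K e, ⟨fun i => (h2 i).le, h3⟩, h2, ?_, ?_, ?_⟩
    · intro u M
      have h6 := h4 u M
      simp only [off_eq_others] at h6
      exact h6
    · intro v L
      have h6 := h5 v L
      simp only [off_eq_others] at h6
      exact h6
    · intro p hp z L M hz
      have h6 := V8H7.KD.schur (V8H7.KD.off ν (V8H7.KD.big A K))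
        (fun u => V8H7.KD.mm ν A K u.1) c (by linarith)
        (fun u v => V8H7.KD.off_nonneg hν' _ u v) (fun u => h2 u.1) h4 h5 p hp z L M hz
      simp only [off_eq_others] at h6
      exact h6

end Pool.Agent.Results.MP_1a2884_al.DominatedPresentations
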