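import Mathlib
import Pool.Agent.V8H84.PF.Main

/-!
# Idempotent matrices over group rings with coefficients of one sign

A Perron-Frobenius theorem for idempotent matrices over group rings, for the map
`K_0(R) → K_0(RG)`.
-/

set_option autoImplicit false

namespace Pool.Agent.Results.MP_1a2884_al.PositiveIdempotents

open Pool.Agent.V8H84.PF

universe u v

/-- every element other than `1` has infinite order -/
def TorsionFree (G : Type v) [Group G] : Prop := ∀ g : G, g ≠ 1 → ¬ IsOfFinOrder g

/-- all coefficients off the diagonal (the coefficients at `1` of the diagonal entries are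
excepted) are at least zero -/
def OffNonneg {R : Type u} [Ring R] [LinearOrder R] {G : Type v} [Group G] {n : ℕ}
    (E : Matrix (Fin n) (Fin n) (MonoidAlgebra R G)) : Prop :=
  ∀ i j g, (i = j → g ≠ 1) → 0 ≤ (E i j).coeff g

/-- all coefficients off the diagonal are at most zero -/
def OffNonpos {R : Type u} [Ring R] [LinearOrder R] {G : Type v} [Group G] {n : ℕ}
    (E : Matrix (Fin n) (Fin n) (MonoidAlgebra R G)) : Prop :=
  ∀ i j g, (i = j → g ≠ 1) → (E i j).coeff g ≤ 0

/-- the matrix is conjugate to an idempotent matrix over the coefficient ring, so that the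
projective module of the matrix is induced from a projective `R`-module -/
def FromRing {R : Type u} [Ring R] {G : Type v} [Group G] {n : ℕ}
    (E : Matrix (Fin n) (Fin n) (MonoidAlgebra R G)) : Prop :=
  ∃ (E₀ : Matrix (Fin n) (Fin n) R) (w : (Matrix (Fin n) (Fin n) (MonoidAlgebra R G))ˣ),
    E₀ * E₀ = E₀ ∧ (w : Matrix (Fin n) (Fin n) (MonoidAlgebra R G)) * E =
      E₀.map (fun x => MonoidAlgebra.single (1 : G) x) *
        (w : Matrix (Fin n) (Fin n) (MonoidAlgebra R G))

theorem one_sub_off {R : Type u} [Ring R] [LinearOrder R] [IsStrictOrderedRing R]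
    {G : Type v} [Group G] {n : ℕ}
    (E : Matrix (Fin n) (Fin n) (MonoidAlgebra R G)) (h : OffNonpos E) :
    ∀ i j g, (i = j → g ≠ 1) → 0 ≤ ((1 - E) i j).coeff g := by
  classical
  intro i j g hd
  have h1 := h i j g hd
  rw [Matrix.sub_apply, MonoidAlgebra.coeff_sub, Finsupp.sub_apply]
  have h2 : ((1 : Matrix (Fin n) (Fin n) (MonoidAlgebra R G)) i j).coeff g = 0 := by
    rw [Matrix.one_apply]
    split_ifs with hij
    · rw [MonoidAlgebra.one_def, MonoidAlgebra.coeff_single, Finsupp.single_apply,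
        if_neg (Ne.symm (hd hij))]
    · rfl
  rw [h2, zero_sub]
  exact neg_nonneg.2 h1

theorem one_sub_idem {A : Type*} [Ring A] {n : ℕ} {E : Matrix (Fin n) (Fin n) A}
    (hE : E * E = E) : (1 - E) * (1 - E) = 1 - E := by
  rw [mul_sub, mul_one, sub_mul, one_mul, hE]
  abel

theorem fromRing_of_compl {R : Type u} [Ring R] {G : Type v} [Group G] {n : ℕ}
    (E : Matrix (Fin n) (Fin n) (MonoidAlgebra R G)) (h : FromRing (1 - E)) : FromRing E := by
  obtain ⟨E₀, w, h0, h1⟩ := h
  refine ⟨1 - E₀, w, one_sub_idem h0, ?_⟩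
  have h2 : (1 - E₀).map (fun x => MonoidAlgebra.single (1 : G) x) =
      1 - E₀.map (fun x => MonoidAlgebra.single (1 : G) x) := by
    ext1 i j
    rw [Matrix.map_apply, Matrix.sub_apply, Matrix.sub_apply, Matrix.map_apply,
      Matrix.one_apply, Matrix.one_apply, MonoidAlgebra.single_sub]
    split_ifs
    · rfl
    · rw [MonoidAlgebra.single_zero]
  rw [h2, sub_mul, one_mul, ← h1, mul_sub, mul_one]
  abel

/-- the finite sets `S i j` contain the supports of the entries and are closed under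
composition -/
structure ClosedSupports {R : Type u} [Ring R] {G : Type v} [Group G] {n : ℕ}
    (E : Matrix (Fin n) (Fin n) (MonoidAlgebra R G)) (S : Fin n → Fin n → Set G) : Prop where
  fin : ∀ i j, (S i j).Finite
  supp : ∀ i j g, (E i j).coeff g ≠ 0 → g ∈ S i j
  mul : ∀ i j k a b, a ∈ S i j → b ∈ S j k → a * b ∈ S i k

/-- `E` is conjugate to a block diagonal idempotent matrix `N` (the blocks are the fibres of `r`)
and the coefficients of each block are supported in a finite subgroup -/
def BlockForm {R : Type u} [Ring R] {G : Type v} [Group G] {n : ℕ}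
    (E : Matrix (Fin n) (Fin n) (MonoidAlgebra R G)) : Prop :=
  ∃ (r : Fin n → Fin n) (F : Fin n → Subgroup G) (N : Matrix (Fin n) (Fin n) (MonoidAlgebra R G))
    (w : (Matrix (Fin n) (Fin n) (MonoidAlgebra R G))ˣ),
    (∀ i, (F i : Set G).Finite) ∧ (∀ i j, r i = r j → F i = F j) ∧ N * N = N ∧
    (w : Matrix (Fin n) (Fin n) (MonoidAlgebra R G)) * E =
      N * (w : Matrix (Fin n) (Fin n) (MonoidAlgebra R G)) ∧
    (∀ i j, r i ≠ r j → N i j = 0) ∧ (∀ i j g, (N i j).coeff g ≠ 0 → g ∈ F i)

/-- `E = U V` and `V U` is the diagonal matrix of the averages of `m ≤ n` finite subgroups, where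
all coefficients of `U` and `V` are at least zero -/
def SumOfOrbits {K : Type u} [Field K] [LinearOrder K] {G : Type v} [Group G] {n : ℕ}
    (E : Matrix (Fin n) (Fin n) (MonoidAlgebra K G)) : Prop :=
  ∃ (m : ℕ) (F : Fin m → Subgroup G) (hF : ∀ c, (F c : Set G).Finite)
    (U : Matrix (Fin n) (Fin m) (MonoidAlgebra K G))
    (V : Matrix (Fin m) (Fin n) (MonoidAlgebra K G)),
    m ≤ n ∧ (∀ i c g, 0 ≤ (U i c).coeff g) ∧ (∀ c i g, 0 ≤ (V c i).coeff g) ∧
    U * V = E ∧ V * U = Matrix.diagonal fun c =>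
      ∑ x ∈ (hF c).toFinset, MonoidAlgebra.single x ((Nat.card (F c) : K)⁻¹)

/-- the row space of `E` is free of rank at most `n` -/
def FreeRows {A : Type*} [Ring A] {n : ℕ} (E : Matrix (Fin n) (Fin n) A) : Prop :=
  ∃ m ≤ n, Nonempty ((Fin m → A) ≃ₗ[A] LinearMap.range E.vecMulLinear)

/-- the direct sum of the row space of `E` and a free module of rank at most `n` is free of rank
`n` -/
def StablyFreeRows {A : Type*} [Ring A] {n : ℕ} (E : Matrix (Fin n) (Fin n) A) : Prop :=
  ∃ m ≤ n, Nonempty ((LinearMap.range E.vecMulLinear × (Fin m → A)) ≃ₗ[A] (Fin n → A))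

/-- `E = U V` for an idempotent matrix `V U` with coefficients of absolute value less than `ε` -/
def Shrinks {K : Type u} [Field K] [LinearOrder K] {G : Type v} [Group G] {n : ℕ}
    (E : Matrix (Fin n) (Fin n) (MonoidAlgebra K G)) (ε : K) : Prop :=
  ∃ (N : ℕ) (E' : Matrix (Fin n × Fin N) (Fin n × Fin N) (MonoidAlgebra K G))
    (U : Matrix (Fin n) (Fin n × Fin N) (MonoidAlgebra K G))
    (V : Matrix (Fin n × Fin N) (Fin n) (MonoidAlgebra K G)),
    E' * E' = E' ∧ U * V = E ∧ V * U = E' ∧ ∀ p q g, |(E' p q).coeff g| < ε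

/-- sums and products of elements of `Q` are in `Q`; a sum is zero only if its terms are, a
product only if a factor is -/
def Cone {R : Type u} [Ring R] (Q : AddSubmonoid R) : Prop :=
  (∀ x ∈ Q, ∀ y ∈ Q, x * y ∈ Q) ∧ (∀ x ∈ Q, ∀ y ∈ Q, x + y = 0 → x = 0) ∧
    (∀ x ∈ Q, ∀ y ∈ Q, x * y = 0 → x = 0 ∨ y = 0)

theorem result :
    -- (1) closed finite supports
    (∀ (R : Type u) [Ring R] (G : Type v) [Group G] (n : ℕ)
      (E : Matrix (Fin n) (Fin n) (MonoidAlgebra R G)), E * E = E →
      ∀ S, ClosedSupports E S → BlockForm E ∧ (TorsionFree G → FromRing E)) ∧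
    -- (2) coefficients in a cone of the coefficient ring
    (∀ (R : Type u) [Ring R] (G : Type v) [Group G] (n : ℕ)
      (E : Matrix (Fin n) (Fin n) (MonoidAlgebra R G)), E * E = E →
      ∀ Q, Cone Q → (∀ i j g, (E i j).coeff g ∈ Q) →
        ClosedSupports E fun i j => {g | (E i j).coeff g ≠ 0}) ∧
    -- (3) linearly ordered rings
    (∀ (R : Type u) [Ring R] [LinearOrder R] [IsStrictOrderedRing R] (G : Type v) [Group G]
      (n : ℕ) (E : Matrix (Fin n) (Fin n) (MonoidAlgebra R G)), E * E = E →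
      (OffNonneg E ∨ OffNonpos E) → TorsionFree G → FromRing E) ∧
    -- (4) and (5) ordered fields
    (∀ (K : Type u) [Field K] [LinearOrder K] [IsStrictOrderedRing K] (G : Type v) [Group G]
      (n : ℕ) (E : Matrix (Fin n) (Fin n) (MonoidAlgebra K G)), E * E = E →
      (OffNonneg E → SumOfOrbits E) ∧ (OffNonneg E → TorsionFree G → FreeRows E) ∧
        (OffNonpos E → TorsionFree G → StablyFreeRows E)) ∧
    -- (6) the condition on the signs cannot be relaxed
    (∀ (K : Type u) [Field K] [LinearOrder K] [IsStrictOrderedRing K] [Archimedean K]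
      (G : Type v) [Group G] (n : ℕ) (E : Matrix (Fin n) (Fin n) (MonoidAlgebra K G)),
      E * E = E → ∀ ε : K, 0 < ε → Shrinks E ε) := by
  refine ⟨?_, ?_, ?_, ?_, ?_⟩
  · rintro R _ G _ n E hE S ⟨h1, h2, h3⟩
    exact ⟨closed_normal E hE S ⟨h1, h2, h3⟩, fun ht => closed_tf ht E hE S ⟨h1, h2, h3⟩⟩
  · rintro R _ G _ n E hE Q ⟨h1, h2, h3⟩ hc
    obtain ⟨h4, h5, h6⟩ := closed_of_cone (Q := Q) ⟨h1, h2, h3⟩ E hE hc
    exact ⟨h4, h5, h6⟩
  · intro R _ _ _ G _ n E hE h ht
    rcases h with h | h
    · exact closed_tf ht E hE _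
        (closed_of_cone isCone_nonneg E hE (nonneg_of_off E hE h))
    · exact fromRing_of_compl E (closed_tf ht (1 - E) (one_sub_idem hE) _
        (closed_of_cone isCone_nonneg (1 - E) (one_sub_idem hE)
          (nonneg_of_off (1 - E) (one_sub_idem hE) (one_sub_off E h))))
  · intro K _ _ _ G _ n E hE
    refine ⟨?_, ?_, ?_⟩
    · intro h
      obtain ⟨m, F, hF, U, V, h1, h2, h3, h4, h5⟩ := posIdem E hE (nonneg_of_off E hE h)
      exact ⟨m, F, hF, U, V, by simpa using h1, h2, h3, h4, h5⟩
    · intro h ht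
      obtain ⟨m, F, hF, U, V, h1, -, -, h4, h5⟩ := posIdem E hE (nonneg_of_off E hE h)
      refine ⟨m, by simpa using h1, rowspace_free E U V h4 ?_⟩
      rw [h5, ← Matrix.diagonal_one]
      congr 1
      funext c
      exact avg_eq_one ht (F c) (hF c)
    · intro h ht
      obtain ⟨m, F, hF, U, V, h1, -, -, h4, h5⟩ := posIdem (1 - E) (one_sub_idem hE)
        (nonneg_of_off (1 - E) (one_sub_idem hE) (one_sub_off E h))
      refine ⟨m, by simpa using h1, stably_free E U V hE h4 ?_⟩
      rw [h5, ← Matrix.diagonal_one]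
      congr 1
      funext c
      exact avg_eq_one ht (F c) (hF c)
  · intro K _ _ _ _ G _ n E hE ε hε
    exact small E hE ε hε

end Pool.Agent.Results.MP_1a2884_al.PositiveIdempotents
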