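import Pool.Agent.V8H47.MG.Inj

set_option autoImplicit false

/-!
# The projective class group conjecture over the space of marked groups

Let `F` be the free group of rank `s`. The normal subgroups `N` of `F` form a compact space, the
space of marked groups `F/N`. For a ring `R` we study the set of the marked groups `G = F/N` for
which `K_0(R) → K_0(RG)` is onto (it is always injective).

1. For a fixed matrix `E` over `RF`, idempotency of `E` modulo `N` is a clopen condition on `N`, and
   it is an open condition that the class of `E` modulo `N` comes from `K_0(R)`.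
2. For countable `R` the set is a `G_δ`. So if it contains a set `X` it contains generic elements of
   the closure of `X` (in the sense of Baire category). In each closed set `C` either generic
   elements belong to it, or a single matrix `E` is a counterexample for all elements of a nonempty
   relatively open subset of `C`.
3. The same holds for all coefficient rings of a class which is closed under ultraproducts
   simultaneously, such as all fields, or all division rings.
4. Compactness: for a class `C` of groups, the map is onto for all torsion-free groups which are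
   locally in `C` if and only if for each `E` there are finitely many words `T`, a number `m` and
   finitely many quadruples `(f, g, U, V)` of matrices over `R` and `RF` such that for all groups of
   `C`, generated by `s` elements or not, in which `E` is idempotent and in which the values of the
   words of `T` have order `1` or more than `m`, one of the quadruples shows that the class of `E`
   comes from `K_0(R)`. For the class of the finite groups this translates the conjecture for
   torsion-free residually finite (or LEF) groups into a statement on group rings of finite groups.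
5. Extremal counterexamples.

The definitions are in `Pool.Agent.V8H47.MG`: `base`, `push`, `FromBase`, `Onto`, `Wit`, `Works`
(Defs), `Marked`, `TorsionFree`, `tf` (Space), `LocallyIn`, `NoShortTorsion`, `Uniform` (Main),
`FinitelyManyData`, `Counter`, `tfQuot` (Ext), `UP`, `SuppIn` (UP), `Within`, `UltraClosed`,
`fields`, `divisionRings`, `UniformAll` (Cls), `Inj` (Inj).
-/

namespace Pool.Agent.Results.MP_1a2884_al.SpaceOfMarkedGroups

open Pool.Agent.V8H47.MG Filter

/-- `E` is idempotent modulo `N` -/
def Idem {R : Type} [Ring R] {s n : ℕ}
    (E : Matrix (Fin n) (Fin n) (MonoidAlgebra R (FreeGroup (Fin s)))) (N : Marked s) : Prop :=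
  push N.mk E * push N.mk E = push N.mk E

/-- the space of marked groups is compact, the torsion-free ones form a closed subset, and Baire's
theorem holds in closed subsets -/
def Space : Prop :=
  ∀ s : ℕ, CompactSpace (Marked s) ∧ T2Space (Marked s) ∧ IsClosed (tf s) ∧
    ∀ C : Set (Marked s), IsClosed C → BaireSpace C

/-- the conditions given by one matrix -/
def OneMatrix : Prop :=
  ∀ (R : Type) [Ring R] (s n : ℕ)
    (E : Matrix (Fin n) (Fin n) (MonoidAlgebra R (FreeGroup (Fin s)))),
    IsClopen {N : Marked s | Idem E N} ∧ IsOpen {N : Marked s | FromBase (push N.mk E)} ∧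
    IsClosed {N : Marked s | Counter E N}

/-- `P` holds for generic elements of the closure of each set on which it holds, and is a `G_δ` -/
def Generic {s : ℕ} (P : Marked s → Prop) : Prop :=
  IsGδ {N | P N} ∧ ∀ X : Set (Marked s), (∀ N ∈ X, P N) →
    ∀ᶠ N : closure X in residual (closure X), P N.1

/-- countable coefficient rings -/
def OneRing : Prop :=
  ∀ (R : Type) [Ring R] [Countable R] (s : ℕ),
    Generic (fun N : Marked s => Onto R N.Grp) ∧
    ∀ C : Set (Marked s), (∀ᶠ N : C in residual C, Onto R N.1.Grp) ∨
      ∃ (n : ℕ) (E : Matrix (Fin n) (Fin n) (MonoidAlgebra R (FreeGroup (Fin s)))),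
        ∃ O : Set (Marked s), IsOpen O ∧ (O ∩ C).Nonempty ∧
          ∀ N ∈ O ∩ C, Idem E N ∧ ¬ FromBase (push N.mk E)

/-- classes of coefficient rings -/
def RingClasses : Prop :=
  UltraClosed fields ∧ UltraClosed divisionRings ∧
  ∀ A : RingClass, UltraClosed A → ∀ s : ℕ,
    Generic (fun N : Marked s => ∀ (K : Type) (hK : Ring K), A K hK → Onto K N.Grp) ∧
    ∀ C : Set (Marked s),
      (∀ᶠ N : C in residual C, ∀ (K : Type) (hK : Ring K), A K hK → Onto K N.1.Grp) ∨
      ∃ (O : Set (Marked s)) (n : ℕ) (S : Finset (FreeGroup (Fin s))),
        IsOpen O ∧ (O ∩ C).Nonempty ∧ ∀ N ∈ O ∩ C, ∃ (K : Type) (hK : Ring K), A K hK ∧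
          ∃ E : Matrix (Fin n) (Fin n) (MonoidAlgebra K (FreeGroup (Fin s))), SuppIn S E ∧
            Idem E N ∧ ¬ FromBase (push N.mk E)

/-- the compactness theorem for one coefficient ring -/
def Compactness : Prop :=
  ∀ (R : Type) [Ring R] (C : GroupClass),
    ((∀ (G : Type) (_ : Group G), TorsionFree G → LocallyIn C G → Onto R G) ↔ Uniform R C) ∧
    ((∀ (G : Type) (_ : Group G), TorsionFree G → LocallyIn C G → Onto R G) ↔
      FinitelyManyData R C)

/-- the compactness theorem for classes of coefficient rings -/
def CompactnessClasses : Prop :=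
  ∀ A : RingClass, UltraClosed A → ∀ C : GroupClass,
    ((∀ (K : Type) (hK : Ring K), A K hK → ∀ (G : Type) (_ : Group G),
      TorsionFree G → LocallyIn C G → Onto K G) ↔ UniformAll A C)

/-- all groups are locally in the class of all groups, and residually finite groups are locally in
the class of finite groups -/
def Local : Prop :=
  (∀ (G : Type) [Group G], LocallyIn (fun _ _ => True) G) ∧
  ∀ (G : Type) [Group G] [Group.ResiduallyFinite G], LocallyIn (fun Γ _ => Finite Γ) G

/-- extremal counterexamples -/
def Extremal : Prop :=
  ∀ (R : Type) [Ring R],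
    (∀ (s n : ℕ) (E : Matrix (Fin n) (Fin n) (MonoidAlgebra R (FreeGroup (Fin s))))
      (N : Marked s), Counter E N →
      (∃ M : Marked s, N.1 ≤ M.1 ∧ Counter E M ∧
        ∀ M' : Marked s, M.1 < M'.1 → TorsionFree M'.Grp → FromBase (push M'.mk E)) ∧
      ∃ D : Finset (FreeGroup (Fin s)), (tfQuot (D : Set (FreeGroup (Fin s)))).1 ≤ N.1 ∧
        Counter E (tfQuot (D : Set (FreeGroup (Fin s))))) ∧
    ((∀ (G : Type) (_ : Group G), TorsionFree G → Onto R G) ↔
      ∀ (s : ℕ) (D : Finset (FreeGroup (Fin s))),
        Onto R (tfQuot (D : Set (FreeGroup (Fin s)))).Grp)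

/-- The projective class group conjecture over the space of marked groups. -/
theorem result :
    (∀ (R : Type) [Ring R] (G : Type) [Group G], Inj R G) ∧
    Space ∧ OneMatrix ∧ OneRing ∧ RingClasses ∧ Compactness ∧ CompactnessClasses ∧ Local ∧
    Extremal := by
  refine ⟨fun R _ G _ => inj R G, fun s => ⟨inferInstance, inferInstance, isClosed_tf s,
    fun C hC => baire_of_isClosed hC⟩, ?_, ?_, ?_, ?_, ?_, ?_, ?_⟩
  · exact fun R _ s n E => ⟨isClopen_idem E, isOpen_fromBase E, isClosed_counter E⟩
  · intro R _ _ s
    refine ⟨⟨isGδ_onto, generic⟩, fun C => ?_⟩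
    rcases dichotomy (R := R) C with h | ⟨O, n, E, hO, hne, h⟩
    · exact Or.inl h
    · exact Or.inr ⟨n, E, O, hO, hne, h⟩
  · exact ⟨ultraClosed_fields, ultraClosed_divisionRings, fun A hA s =>
      ⟨⟨isGδ_ontoAll hA, genericAll hA⟩, dichotomyAll hA⟩⟩
  · exact fun R _ C => compactness' C
  · exact fun A hA C => compactnessAll hA C
  · exact ⟨fun G _ => locallyIn_all G, fun G _ _ => locallyIn_finite_of_residuallyFinite G⟩
  · intro R _
    refine ⟨fun s n E N hN => ⟨exists_maximal E N hN, ?_⟩, onto_all_iff⟩
    obtain ⟨D, -, h1, h2⟩ := exists_finite_presentation E N hN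
    exact ⟨D, h1, h2⟩

end Pool.Agent.Results.MP_1a2884_al.SpaceOfMarkedGroups
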