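import Pool.Agent.V8H47.RD.Fin

set_option autoImplicit false

/-!
# Modules presented by matrices dominated by their part over subgroups

Let `R` be any ring and `G` any group. The rows and columns of a matrix `A` over `RG` are placed at
points `a i`, `b j` of a set `V` with an action of `G`; the coefficient of `g` in the `i`-th
coordinate of a row vector then sits at the point `g • a i`. So a row vector is divided into parts,
one for each point of `V`. For `V = G/H` and all `a i`, `b j` equal to the coset `H` the parts are the
parts over the cosets of `H`, and the part of `A` within the points is the part over `RH`.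

`A` is dominated if for vectors `y` at one point `v` the part of `y A` at another point `u` is at most
`E v u` times the part of `y A` at `v`, in some norm, where the kernel `E` is invariant and does not
increase some weighted `ℓ^p` norm (equality allowed). We show that the row space of `A` is then a
direct sum of modules induced from subgroups which contain the stabilisers of the points with finite
index, and that a projective module presented by `A` is stably the negative of such a sum.

The definitions are in `Pool.Agent.V8H47.RD`: `cut`, `part` (Cut), `IsNorm`, `Dom` (Ker), `Contr`
(Flow), `incl` (Str), `Dominated`, `Over` (Main), `ext1R` (Free), `cosetPart`, `lt`, `SubDominated`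
(Sub), `Presents` (Fin).
-/

namespace Pool.Agent.Results.MP_1a2884_al.SubgroupDominance

open Pool.Agent.V8H47.RD

variable {R : Type} [Ring R] {G : Type} [Group G] {ι κ V : Type} [Fintype ι] [MulAction G V]

/-- The row space of `A` is the direct sum of modules induced from the row spaces of matrices over
`R (K i)`, where `K i` contains the stabiliser of `a i` with finite index. -/
def RowSpaceInduced (a : ι → V) (A : Matrix ι κ (MonoidAlgebra R G)) : Prop :=
  ∃ K : ι → Subgroup G, (∀ i, Over (K i) (a i)) ∧ ∃ B : ∀ i, Matrix ι κ (MonoidAlgebra R (K i)),
    Nonempty (LinearMap.range A.vecMulLinear ≃ₗ[MonoidAlgebra R G]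
      ∀ i, LinearMap.range ((B i).map (incl (K i))).vecMulLinear)

/-- The direct sum of `P` and of the modules induced from the row spaces of idempotent matrices over
`R (K i)`, where `K i` contains the stabiliser of `a i` with finite index, is free with basis `κ`. -/
def StablyInduced (a : ι → V) (κ : Type) (P : Type) [AddCommGroup P]
    [Module (MonoidAlgebra R G) P] : Prop :=
  ∃ K : ι → Subgroup G, (∀ i, Over (K i) (a i)) ∧
    ∃ F : ∀ i, Matrix ι ι (MonoidAlgebra R (K i)), (∀ i, F i * F i = F i) ∧
      Nonempty ((P × (∀ i, LinearMap.range ((F i).map (incl (K i))).vecMulLinear))
        ≃ₗ[MonoidAlgebra R G] (κ → MonoidAlgebra R G))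

/-- The direct sum of `P` and of the module induced from the row space of an idempotent matrix over
`R` is free with basis `κ`. -/
def StablyFromR (ι κ : Type) [Fintype ι] (P : Type) [AddCommGroup P]
    [Module (MonoidAlgebra R G) P] : Prop :=
  ∃ F : Matrix ι ι R, F * F = F ∧
    Nonempty ((P × LinearMap.range (ext1R G F).vecMulLinear) ≃ₗ[MonoidAlgebra R G]
      (κ → MonoidAlgebra R G))

/-- The direct sum of `P` and of the module induced from the row space of an idempotent matrix over
`RK`, where `K` contains `H` with finite index, is free with basis `κ`. -/
def StablyFrom (H : Subgroup G) (ι κ : Type) [Fintype ι] (P : Type) [AddCommGroup P]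
    [Module (MonoidAlgebra R G) P] : Prop :=
  ∃ K : Subgroup G, H ≤ K ∧ (H.subgroupOf K).FiniteIndex ∧
    ∃ F : Matrix ι ι (MonoidAlgebra R K), F * F = F ∧
      Nonempty ((P × LinearMap.range (F.map (incl K)).vecMulLinear)
        ≃ₗ[MonoidAlgebra R G] (κ → MonoidAlgebra R G))

/-- (1) The row space of a dominated matrix is a direct sum of modules induced from row spaces of
matrices over `RK`, where `K` contains the stabiliser of one of the points `a i` with finite index.

(2) If `P` is projective and presented by a dominated matrix, the class of `P` is in the sum of the
images of `K_0(RK)` for such subgroups `K`.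

(3) If moreover `G` is torsion-free and the stabilisers of the `a i` are trivial, the class of `P`
comes from `K_0(R)`.

(4) Let `H` be a subgroup. If for all vectors `y` over `RH` the part of `y A` over each coset `c ≠ H`
is at most `e c` times the part over `H`, in some norm invariant under left translations, where
`∑ e c ≤ 1`, the class of a projective module `P` presented by `A` comes from `K_0(RK)` for a subgroup
`K` which contains `H` with finite index. -/
theorem result (R : Type) [Ring R] (G : Type) [Group G] (ι κ : Type) [Fintype ι] [Fintype κ]
    (A : Matrix ι κ (MonoidAlgebra R G)) :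
    (∀ (V : Type) [MulAction G V] (a : ι → V) (b : κ → V), Dominated a b A →
      RowSpaceInduced a A) ∧
    ∀ (P : Type) [AddCommGroup P] [Module (MonoidAlgebra R G) P],
      Module.Projective (MonoidAlgebra R G) P → Presents A P →
      (∀ (V : Type) [MulAction G V] (a : ι → V) (b : κ → V), Dominated a b A →
        StablyInduced (R := R) (G := G) a κ P ∧
        ((∀ g : G, IsOfFinOrder g → g = 1) → (∀ i, MulAction.stabilizer G (a i) = ⊥) →
          StablyFromR (R := R) (G := G) ι κ P)) ∧
      ∀ H : Subgroup G, SubDominated H A → StablyFrom (R := R) H ι κ P :=
  ⟨fun _ _ _ _ h => rows h, fun _ _ _ hP hA => ⟨fun _ _ _ _ h => ⟨proj_P h hP hA,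
    fun htf ha => free_P htf ha h hP hA⟩, fun H h => sub_P H h hP hA⟩⟩

end Pool.Agent.Results.MP_1a2884_al.SubgroupDominance
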